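import Pool.Agent.PDA.All
import Pool.Agent.PDA.PDLink

/-!
# Amenable virtually residually finite-`p` subgroups of `PD_3`-groups are virtually poly-`ℤ`

Let `G` be a `PD_3`-group, `H ≤ G` a finitely generated amenable subgroup and `p` a prime, such that
some subgroup of finite index of `H` is residually a finite `p`-group. If `H` has infinite index in
`G`, or if some subgroup of finite index of `H` has a nontrivial homomorphism to `ℤ`, then `H` is
virtually poly-`ℤ`.
-/

set_option autoImplicit false

namespace Pool.Agent.Results.MP_add920_al.AmenableResiduallyP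

open Pool.Agent.PDA Pool.Agent.PDB

theorem result (G : Type) [Group G] (hG : PD3 G) (H : Subgroup G) (hfg : H.FG)
    (ham : Folner H) (p : ℕ) [Fact p.Prime] (H0 : Subgroup H) (h0 : H0.index ≠ 0)
    (hres : ResP H0 p)
    (hind : H.index = 0 ∨
      ∃ H1 : Subgroup H, H1.index ≠ 0 ∧ ∃ χ : H1 →* Multiplicative ℤ, χ ≠ 1) :
    VPolyZ H :=
  pf_MAD G hG.isPD3 H hfg ham p H0 h0 hres hind

end Pool.Agent.Results.MP_add920_al.AmenableResiduallyP
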