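import Pool.Agent.PDE.MDL
import Pool.Agent.PDA.PDLink

/-!
# Subgroups of `PD_3`-groups without nonabelian free subgroups

Let `G` be a `PD_3`-group and `H ≤ G` a finitely generated subgroup without nonabelian free subgroups.
If `H` has a subgroup `H0` of finite index which is residually (amenable and locally indicable), or
which is locally indicable and such that `ℚ[H0]` embeds in a division ring, then `H` is virtually
poly-`ℤ`.
-/

set_option autoImplicit false

namespace Pool.Agent.Results.MP_add920_al.NoFreeSubgroups

open Pool.Agent.PDA Pool.Agent.PDB Pool.Agent.PDE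

theorem result (G : Type) [Group G] (hG : PD3 G) (H : Subgroup G) (hfg : H.FG) (hno : NoF2 H)
    (H0 : Subgroup H) (h0 : H0.index ≠ 0) (h : ResLIA H0 ∨ (LocInd H0 ∧ EmbD H0)) : VPolyZ H :=
  pf_MDL G hG.isPD3 H hfg hno H0 h0 h

end Pool.Agent.Results.MP_add920_al.NoFreeSubgroups
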