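import Pool.Agent.PDT.All
import Pool.Agent.PDA.PDLink

/-!
# Subgroups of finite index without nonabelian free subgroups and with positive virtual `b_1`

Let `G` be a `PD_3`-group and `H ≤ G` a subgroup of finite index without nonabelian free subgroups. If
some subgroup `H1 ≤ H` of finite index has a nontrivial homomorphism to `ℤ`, then `H` is virtually
poly-`ℤ`.
-/

set_option autoImplicit false

namespace Pool.Agent.Results.MP_add920_al.VirtuallyIndicable

open Pool.Agent.PDA Pool.Agent.PDB Pool.Agent.PDE

theorem result (G : Type) [Group G] (hG : PD3 G) (H : Subgroup G) (hH : H.index ≠ 0)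
    (hno : NoF2 H)
    (h : ∃ H1 : Subgroup H, H1.index ≠ 0 ∧ ∃ χ : H1 →* Multiplicative ℤ, χ ≠ 1) : VPolyZ H :=
  PDT.pf_MDT G hG.isPD3 H hH hno h

end Pool.Agent.Results.MP_add920_al.VirtuallyIndicable
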